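import Pool.Agent.H98.Cubic.Targets
import Pool.Agent.H98.Cubic.Basic

/-! Cubic moment of Hardy's function: elementary sums used in `TErr` and `TP3`. -/

set_option autoImplicit false

open Finset

namespace Pool.Agent.H90.Cubic

open Pool.Agent.H98.Cubic

/-- harmonic sum -/
noncomputable def HK (K : ℕ) : ℝ := ∑ j ∈ Icc 1 K, 1 / (j : ℝ)

/-- sum of `1/√j` -/
noncomputable def SK (K : ℕ) : ℝ := ∑ j ∈ Icc 1 K, 1 / Real.sqrt (j : ℝ)

theorem HK_nonneg (K : ℕ) : 0 ≤ HK K := by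
  unfold HK; exact Finset.sum_nonneg fun j _ => by positivity

theorem SK_nonneg (K : ℕ) : 0 ≤ SK K := by
  unfold SK; exact Finset.sum_nonneg fun j _ => by positivity

theorem SK_le (K : ℕ) : SK K ≤ 2 * Real.sqrt K := by
  unfold SK
  induction K with
  | zero => simp
  | succ K ih =>
    rw [Finset.sum_Icc_succ_top (by omega)]
    have h0 : (0 : ℝ) ≤ K := Nat.cast_nonneg K
    have h1 : 0 < Real.sqrt ((K + 1 : ℕ) : ℝ) := Real.sqrt_pos.mpr (by positivity)
    have h2 : 0 ≤ Real.sqrt (K : ℝ) := Real.sqrt_nonneg _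
    have h3 : Real.sqrt ((K + 1 : ℕ) : ℝ) ^ 2 = K + 1 := by
      rw [Real.sq_sqrt (by positivity)]; push_cast; ring
    have h4 : Real.sqrt (K : ℝ) ^ 2 = K := Real.sq_sqrt h0
    have h5 : Real.sqrt (K : ℝ) ≤ Real.sqrt ((K + 1 : ℕ) : ℝ) :=
      Real.sqrt_le_sqrt (by push_cast; linarith)
    have h6 : 1 / Real.sqrt ((K + 1 : ℕ) : ℝ) ≤
        2 * Real.sqrt ((K + 1 : ℕ) : ℝ) - 2 * Real.sqrt (K : ℝ) := by
      rw [div_le_iff₀ h1]
      nlinarith
    linarith

theorem HK_le (K : ℕ) : HK K ≤ 9 * (K : ℝ) ^ (1 / 8 : ℝ) := by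
  rcases Nat.eq_zero_or_pos K with hK | hK
  · subst hK
    unfold HK
    simp
  · have h1 : HK K ≤ 1 + Real.log K := by
      have := harmonic_le_one_add_log K
      have h2 : HK K = ((harmonic K : ℚ) : ℝ) := by
        unfold HK
        rw [harmonic_eq_sum_Icc]
        push_cast
        exact Finset.sum_congr rfl fun j _ => by rw [one_div]
      rw [h2]; exact this
    have h2 : Real.log K ≤ (K : ℝ) ^ (1 / 8 : ℝ) / (1 / 8) :=
      Real.log_le_rpow_div (Nat.cast_nonneg K) (by norm_num)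
    have h3 : (1 : ℝ) ≤ (K : ℝ) ^ (1 / 8 : ℝ) :=
      Real.one_le_rpow (by exact_mod_cast hK) (by norm_num)
    linarith

theorem one_le_HK {K : ℕ} (hK : 1 ≤ K) : 1 ≤ HK K := by
  unfold HK
  have : (1 : ℝ) / ((1 : ℕ) : ℝ) ≤ ∑ j ∈ Icc 1 K, 1 / (j : ℝ) :=
    Finset.single_le_sum (f := fun j : ℕ => 1 / (j : ℝ)) (fun j _ => by positivity)
      (Finset.mem_Icc.mpr ⟨le_rfl, hK⟩)
  simpa using this

theorem sum_range_inv_le (K : ℕ) {δ : ℝ} (hδ : 0 < δ) :
    ∑ j ∈ range K, 1 / (δ + (j : ℝ)) ≤ 1 / δ + HK K := by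
  have key : ∀ m : ℕ, ∑ j ∈ range (m + 1), 1 / (δ + (j : ℝ)) ≤
      1 / δ + ∑ j ∈ Icc 1 m, 1 / (j : ℝ) := by
    intro m
    induction m with
    | zero => simp
    | succ m ihm =>
      rw [Finset.sum_range_succ, Finset.sum_Icc_succ_top (by omega)]
      have h1 : 1 / (δ + ((m + 1 : ℕ) : ℝ)) ≤ 1 / ((m + 1 : ℕ) : ℝ) := by
        apply one_div_le_one_div_of_le (by positivity); linarith
      linarith
  have h1 := key K
  rw [Finset.sum_range_succ] at h1
  have h2 : (0 : ℝ) ≤ 1 / (δ + (K : ℝ)) := by positivity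
  unfold HK
  linarith

/-- near-point sum. -/
theorem sum_near (K : ℕ) (x : ℝ) {δ : ℝ} (hδ : 0 < δ) :
    ∑ a ∈ Icc 1 K, 1 / (δ + |(a : ℝ) - x|) ≤ 2 / δ + 2 * HK K := by
  have hsplit := Finset.sum_filter_add_sum_filter_not (Icc 1 K) (fun a : ℕ => (a : ℝ) ≤ x)
    (fun a : ℕ => 1 / (δ + |(a : ℝ) - x|))
  rw [← hsplit]
  have hR := sum_range_inv_le K hδ
  have hpos : ∀ j ∈ range K, (0 : ℝ) ≤ 1 / (δ + (j : ℝ)) := fun j _ => by positivity
  have h1 : ∑ a ∈ (Icc 1 K).filter (fun a : ℕ => (a : ℝ) ≤ x), 1 / (δ + |(a : ℝ) - x|) ≤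
      1 / δ + HK K := by
    refine le_trans ?_ hR
    rcases Finset.eq_empty_or_nonempty ((Icc 1 K).filter (fun a : ℕ => (a : ℝ) ≤ x)) with he | hne
    · rw [he, Finset.sum_empty]; exact Finset.sum_nonneg hpos
    · set s := (Icc 1 K).filter (fun a : ℕ => (a : ℝ) ≤ x) with hs
      set m := s.max' hne with hm
      have hmem := s.max'_mem hne
      rw [← hm] at hmem
      have hmx : (m : ℝ) ≤ x := (Finset.mem_filter.mp hmem).2
      have hmK : m ≤ K := (Finset.mem_Icc.mp (Finset.mem_filter.mp hmem).1).2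
      have hle : ∀ a ∈ s, a ≤ m := fun a ha => s.le_max' a ha
      have hinj : Set.InjOn (fun a : ℕ => m - a) (s : Set ℕ) := by
        intro a ha b hb hab
        have h1 := hle a (Finset.mem_coe.mp ha)
        have h2 := hle b (Finset.mem_coe.mp hb)
        simp only at hab; omega
      have himg : ∑ a ∈ s, 1 / (δ + (((m - a : ℕ)) : ℝ)) =
          ∑ j ∈ s.image (fun a : ℕ => m - a), 1 / (δ + (j : ℝ)) := by
        rw [Finset.sum_image hinj]
      have hsub : s.image (fun a : ℕ => m - a) ⊆ range K := by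
        intro j hj
        obtain ⟨a, ha, rfl⟩ := Finset.mem_image.mp hj
        have h1 := hle a ha
        have h2 := (Finset.mem_Icc.mp (Finset.mem_filter.mp ha).1).1
        exact Finset.mem_range.mpr (by omega)
      calc ∑ a ∈ s, 1 / (δ + |(a : ℝ) - x|) ≤ ∑ a ∈ s, 1 / (δ + (((m - a : ℕ)) : ℝ)) := by
            apply Finset.sum_le_sum
            intro a ha
            have h1 := hle a ha
            have h1' : (a : ℝ) ≤ m := by exact_mod_cast h1
            rw [Nat.cast_sub h1]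
            apply one_div_le_one_div_of_le
            · linarith
            · have : (x : ℝ) - a ≤ |(a : ℝ) - x| := by rw [abs_sub_comm]; exact le_abs_self _
              linarith
        _ = _ := himg
        _ ≤ _ := Finset.sum_le_sum_of_subset_of_nonneg hsub fun j hj _ => hpos j hj
  have h2 : ∑ a ∈ (Icc 1 K).filter (fun a : ℕ => ¬ (a : ℝ) ≤ x), 1 / (δ + |(a : ℝ) - x|) ≤
      1 / δ + HK K := by
    refine le_trans ?_ hR
    rcases Finset.eq_empty_or_nonempty ((Icc 1 K).filter (fun a : ℕ => ¬ (a : ℝ) ≤ x))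
      with he | hne
    · rw [he, Finset.sum_empty]; exact Finset.sum_nonneg hpos
    · set s := (Icc 1 K).filter (fun a : ℕ => ¬ (a : ℝ) ≤ x) with hs
      set m := s.min' hne with hm
      have hmem := s.min'_mem hne
      rw [← hm] at hmem
      have hmx : x < (m : ℝ) := not_le.mp (Finset.mem_filter.mp hmem).2
      have hm1 : 1 ≤ m := (Finset.mem_Icc.mp (Finset.mem_filter.mp hmem).1).1
      have hle : ∀ a ∈ s, m ≤ a := fun a ha => s.min'_le a ha
      have hinj : Set.InjOn (fun a : ℕ => a - m) (s : Set ℕ) := by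
        intro a ha b hb hab
        have h1 := hle a (Finset.mem_coe.mp ha)
        have h2 := hle b (Finset.mem_coe.mp hb)
        simp only at hab; omega
      have himg : ∑ a ∈ s, 1 / (δ + (((a - m : ℕ)) : ℝ)) =
          ∑ j ∈ s.image (fun a : ℕ => a - m), 1 / (δ + (j : ℝ)) := by
        rw [Finset.sum_image hinj]
      have hsub : s.image (fun a : ℕ => a - m) ⊆ range K := by
        intro j hj
        obtain ⟨a, ha, rfl⟩ := Finset.mem_image.mp hj
        have h1 := hle a ha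
        have h2 := (Finset.mem_Icc.mp (Finset.mem_filter.mp ha).1).2
        exact Finset.mem_range.mpr (by omega)
      calc ∑ a ∈ s, 1 / (δ + |(a : ℝ) - x|) ≤ ∑ a ∈ s, 1 / (δ + (((a - m : ℕ)) : ℝ)) := by
            apply Finset.sum_le_sum
            intro a ha
            have h1 := hle a ha
            have h1' : (m : ℝ) ≤ a := by exact_mod_cast h1
            rw [Nat.cast_sub h1]
            apply one_div_le_one_div_of_le
            · linarith
            · have : (a : ℝ) - x ≤ |(a : ℝ) - x| := le_abs_self _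
              linarith
        _ = _ := himg
        _ ≤ _ := Finset.sum_le_sum_of_subset_of_nonneg hsub fun j hj _ => hpos j hj
  have e : 2 / δ + 2 * HK K = (1 / δ + HK K) + (1 / δ + HK K) := by ring
  rw [e]
  exact add_le_add h1 h2

/-- the weighted near-point sum. -/
theorem sum_near_weight (K : ℕ) {x δ : ℝ} (hx : 0 < x) (hδ : 0 < δ) :
    ∑ a ∈ Icc 1 K, 1 / Real.sqrt (a : ℝ) * (x / (δ + |(a : ℝ) - x|)) ≤
      2 * SK K + Real.sqrt (2 * x) * (2 / δ + 2 * HK K) := by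
  have hpt : ∀ a ∈ Icc 1 K, 1 / Real.sqrt (a : ℝ) * (x / (δ + |(a : ℝ) - x|)) ≤
      2 * (1 / Real.sqrt (a : ℝ)) + Real.sqrt (2 * x) * (1 / (δ + |(a : ℝ) - x|)) := by
    intro a ha
    have ha1 : (1 : ℝ) ≤ a := by exact_mod_cast (Finset.mem_Icc.mp ha).1
    have hD : 0 < δ + |(a : ℝ) - x| := by positivity
    have hs : 0 < Real.sqrt (a : ℝ) := Real.sqrt_pos.mpr (by linarith)
    rcases le_total (a : ℝ) (x / 2) with h | h
    · have h1 : x / 2 ≤ δ + |(a : ℝ) - x| := by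
        have : x - a ≤ |(a : ℝ) - x| := by rw [abs_sub_comm]; exact le_abs_self _
        linarith
      have h2 : x / (δ + |(a : ℝ) - x|) ≤ 2 := by
        rw [div_le_iff₀ hD]; linarith
      have h3 : 0 ≤ Real.sqrt (2 * x) * (1 / (δ + |(a : ℝ) - x|)) := by positivity
      have h4 : 1 / Real.sqrt (a : ℝ) * (x / (δ + |(a : ℝ) - x|)) ≤
          1 / Real.sqrt (a : ℝ) * 2 := mul_le_mul_of_nonneg_left h2 (by positivity)
      linarith
    · have h1 : 1 / Real.sqrt (a : ℝ) * x ≤ Real.sqrt (2 * x) := by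
        rw [one_div, inv_mul_le_iff₀ hs, ← Real.sqrt_mul (by linarith)]
        apply Real.le_sqrt_of_sq_le
        nlinarith
      have h2 : 1 / Real.sqrt (a : ℝ) * (x / (δ + |(a : ℝ) - x|)) =
          (1 / Real.sqrt (a : ℝ) * x) * (1 / (δ + |(a : ℝ) - x|)) := by ring
      have h3 : (0 : ℝ) ≤ 2 * (1 / Real.sqrt (a : ℝ)) := by positivity
      have h4 : (1 / Real.sqrt (a : ℝ) * x) * (1 / (δ + |(a : ℝ) - x|)) ≤
          Real.sqrt (2 * x) * (1 / (δ + |(a : ℝ) - x|)) :=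
        mul_le_mul_of_nonneg_right h1 (by positivity)
      linarith
  calc _ ≤ ∑ a ∈ Icc 1 K, (2 * (1 / Real.sqrt (a : ℝ)) +
        Real.sqrt (2 * x) * (1 / (δ + |(a : ℝ) - x|))) := Finset.sum_le_sum hpt
    _ = 2 * SK K + Real.sqrt (2 * x) * ∑ a ∈ Icc 1 K, 1 / (δ + |(a : ℝ) - x|) := by
        rw [Finset.sum_add_distrib, ← Finset.mul_sum, ← Finset.mul_sum]; rfl
    _ ≤ _ := by
        have := sum_near K x hδ
        gcongr

/-- `ρ/(1+|ρ - ab/c|)` summed over `a` -/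
theorem sum_a (K b c : ℕ) (hb : 1 ≤ b) (hc : 1 ≤ c) {ρ : ℝ} (hρ : 0 < ρ) :
    ∑ a ∈ Icc 1 K, 1 / Real.sqrt ((a : ℝ) * b * c) * (ρ / (1 + |ρ - (a : ℝ) * b / c|)) ≤
      2 * SK K * (1 / Real.sqrt b * (1 / Real.sqrt c)) +
        3 * Real.sqrt ρ * (1 / (c : ℝ)) + 3 * Real.sqrt ρ * (1 / (b : ℝ)) * HK K := by
  have hb' : (0 : ℝ) < b := by exact_mod_cast hb
  have hc' : (0 : ℝ) < c := by exact_mod_cast hc
  have hx : 0 < ρ * c / b := by positivity
  have hδ : (0 : ℝ) < (c : ℝ) / b := by positivity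
  have key := sum_near_weight K hx hδ
  have e1 : ∀ a ∈ Icc 1 K, 1 / Real.sqrt ((a : ℝ) * b * c) * (ρ / (1 + |ρ - (a : ℝ) * b / c|)) =
      (1 / Real.sqrt b * (1 / Real.sqrt c)) *
        (1 / Real.sqrt (a : ℝ) * ((ρ * c / b) / ((c : ℝ) / b + |(a : ℝ) - ρ * c / b|))) := by
    intro a ha
    have ha1 : (1 : ℝ) ≤ a := by exact_mod_cast (Finset.mem_Icc.mp ha).1
    have h1 : Real.sqrt ((a : ℝ) * b * c) = Real.sqrt a * Real.sqrt b * Real.sqrt c := by
      rw [Real.sqrt_mul (by positivity), Real.sqrt_mul (by positivity)]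
    have h2 : |(a : ℝ) - ρ * c / b| = (c : ℝ) / b * |ρ - (a : ℝ) * b / c| := by
      rw [abs_sub_comm, ← abs_of_pos hδ, ← abs_mul]
      congr 1
      field_simp
    have h3 : (0 : ℝ) < 1 + |ρ - (a : ℝ) * b / c| := by positivity
    have h4 : (ρ * c / b) / ((c : ℝ) / b + |(a : ℝ) - ρ * c / b|) =
        ρ / (1 + |ρ - (a : ℝ) * b / c|) := by
      rw [h2]
      have : (c : ℝ) / b + (c : ℝ) / b * |ρ - (a : ℝ) * b / c| =
        (c : ℝ) / b * (1 + |ρ - (a : ℝ) * b / c|) := by ring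
      rw [this]
      field_simp
    rw [h4, h1]
    have hsa : 0 < Real.sqrt (a : ℝ) := Real.sqrt_pos.mpr (by linarith)
    have hsb : 0 < Real.sqrt (b : ℝ) := Real.sqrt_pos.mpr hb'
    have hsc : 0 < Real.sqrt (c : ℝ) := Real.sqrt_pos.mpr hc'
    field_simp
  rw [Finset.sum_congr rfl e1, ← Finset.mul_sum]
  have hsb : 0 < Real.sqrt (b : ℝ) := Real.sqrt_pos.mpr hb'
  have hsc : 0 < Real.sqrt (c : ℝ) := Real.sqrt_pos.mpr hc'
  have h5 : (0 : ℝ) ≤ 1 / Real.sqrt b * (1 / Real.sqrt c) := by positivity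
  refine (mul_le_mul_of_nonneg_left key h5).trans ?_
  have hsq2 : Real.sqrt 2 ≤ 3 / 2 := by
    rw [Real.sqrt_le_left (by norm_num)]; norm_num
  have e2 : Real.sqrt (2 * (ρ * c / b)) = Real.sqrt 2 * (Real.sqrt ρ * Real.sqrt c / Real.sqrt b) := by
    rw [Real.sqrt_mul (by norm_num), Real.sqrt_div (by positivity), Real.sqrt_mul hρ.le]
  have hbb : Real.sqrt b * Real.sqrt b = b := Real.mul_self_sqrt hb'.le
  have hcc : Real.sqrt c * Real.sqrt c = c := Real.mul_self_sqrt hc'.le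
  have e3 : 1 / Real.sqrt b * (1 / Real.sqrt c) *
      (2 * SK K + Real.sqrt (2 * (ρ * c / b)) * (2 / ((c : ℝ) / b) + 2 * HK K)) =
      2 * SK K * (1 / Real.sqrt b * (1 / Real.sqrt c)) +
        (2 * Real.sqrt 2) * Real.sqrt ρ * (1 / (c : ℝ)) +
          (2 * Real.sqrt 2) * Real.sqrt ρ * (1 / (b : ℝ)) * HK K := by
    rw [e2]
    have hb2 : (b : ℝ) = Real.sqrt b ^ 2 := by rw [sq, hbb]
    have hc2 : (c : ℝ) = Real.sqrt c ^ 2 := by rw [sq, hcc]
    generalize Real.sqrt (b : ℝ) = B at *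
    generalize Real.sqrt (c : ℝ) = C at *
    rw [hb2, hc2]
    field_simp
    ring
  rw [e3]
  have h6 : (2 * Real.sqrt 2) ≤ 3 := by linarith
  have h7 : 0 ≤ HK K := HK_nonneg K
  gcongr

theorem sum_sqrt_pair (K : ℕ) :
    ∑ b ∈ Icc 1 K, ∑ c ∈ Icc 1 K, 1 / Real.sqrt b * (1 / Real.sqrt c) * (1 / (1 + |(c : ℝ) - b|)) ≤
      HK K * (2 + 2 * HK K) := by
  have hpt : ∀ b ∈ Icc 1 K, ∀ c ∈ Icc 1 K,
      1 / Real.sqrt (b : ℝ) * (1 / Real.sqrt (c : ℝ)) * (1 / (1 + |(c : ℝ) - b|)) ≤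
        1 / 2 * ((1 / (b : ℝ)) * (1 / (1 + |(c : ℝ) - b|))) +
        1 / 2 * ((1 / (c : ℝ)) * (1 / (1 + |(b : ℝ) - c|))) := by
    intro b hb c hc
    have hb' : (0 : ℝ) < b := by
      have := (Finset.mem_Icc.mp hb).1; exact_mod_cast this
    have hc' : (0 : ℝ) < c := by
      have := (Finset.mem_Icc.mp hc).1; exact_mod_cast this
    have h0 : (0 : ℝ) ≤ 1 / (1 + |(c : ℝ) - b|) := by positivity
    rw [abs_sub_comm (b : ℝ) c]
    have h1 : 1 / Real.sqrt (b : ℝ) * (1 / Real.sqrt (c : ℝ)) ≤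
        1 / 2 * (1 / (b : ℝ)) + 1 / 2 * (1 / (c : ℝ)) := by
      have e1 : 1 / (b : ℝ) = (1 / Real.sqrt (b : ℝ)) ^ 2 := by
        rw [div_pow, Real.sq_sqrt hb'.le]; norm_num
      have e2 : 1 / (c : ℝ) = (1 / Real.sqrt (c : ℝ)) ^ 2 := by
        rw [div_pow, Real.sq_sqrt hc'.le]; norm_num
      rw [e1, e2]
      nlinarith [sq_nonneg (1 / Real.sqrt (b : ℝ) - 1 / Real.sqrt (c : ℝ))]
    have := mul_le_mul_of_nonneg_right h1 h0
    linarith
  have hone : ∀ b : ℕ, ∑ c ∈ Icc 1 K, 1 / (1 + |(c : ℝ) - b|) ≤ 2 + 2 * HK K := by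
    intro b
    have := sum_near K (b : ℝ) (δ := 1) one_pos
    simpa using this
  calc _ ≤ ∑ b ∈ Icc 1 K, ∑ c ∈ Icc 1 K, (1 / 2 * ((1 / (b : ℝ)) * (1 / (1 + |(c : ℝ) - b|))) +
        1 / 2 * ((1 / (c : ℝ)) * (1 / (1 + |(b : ℝ) - c|)))) :=
        Finset.sum_le_sum fun b hb => Finset.sum_le_sum fun c hc => hpt b hb c hc
    _ = 1 / 2 * (∑ b ∈ Icc 1 K, ∑ c ∈ Icc 1 K, (1 / (b : ℝ)) * (1 / (1 + |(c : ℝ) - b|))) +
        1 / 2 * (∑ c ∈ Icc 1 K, ∑ b ∈ Icc 1 K, (1 / (c : ℝ)) * (1 / (1 + |(b : ℝ) - c|))) := by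
        simp only [Finset.sum_add_distrib, ← Finset.mul_sum]
        congr 2
        simp only [Finset.mul_sum]
        rw [Finset.sum_comm]
    _ ≤ 1 / 2 * (HK K * (2 + 2 * HK K)) + 1 / 2 * (HK K * (2 + 2 * HK K)) := by
        have hI : ∑ b ∈ Icc 1 K, ∑ c ∈ Icc 1 K, (1 / (b : ℝ)) * (1 / (1 + |(c : ℝ) - b|)) ≤
            HK K * (2 + 2 * HK K) := by
          unfold HK
          rw [Finset.sum_mul]
          apply Finset.sum_le_sum
          intro b _
          rw [← Finset.mul_sum]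
          exact mul_le_mul_of_nonneg_left (hone b) (by positivity)
        gcongr
    _ = _ := by ring

end Pool.Agent.H90.Cubic
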