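import Pool.Agent.H90.Cubic.Elem

/-! Cubic moment of Hardy's function: module `TErr`. -/

set_option autoImplicit false

open Finset

namespace Pool.Agent.H90.Cubic

open Pool.Agent.H98.Cubic

theorem abs_log_ge {ρ ξ : ℝ} (hρ : 0 < ρ) (hξ : 0 < ξ) :
    |ρ - ξ| ≤ max ρ ξ * |Real.log (ρ / ξ)| := by
  rcases le_total ξ ρ with h | h
  · rw [max_eq_left h, abs_of_nonneg (sub_nonneg.mpr h)]
    have h1 : Real.log (ξ / ρ) ≤ ξ / ρ - 1 := Real.log_le_sub_one_of_pos (by positivity)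
    have h2 : Real.log (ρ / ξ) = - Real.log (ξ / ρ) := by
      rw [← Real.log_inv, inv_div]
    have h3 : Real.log (ρ / ξ) ≤ |Real.log (ρ / ξ)| := le_abs_self _
    have h4 : ρ * (1 - ξ / ρ) ≤ ρ * |Real.log (ρ / ξ)| := by
      apply mul_le_mul_of_nonneg_left _ hρ.le; linarith
    have h5 : ρ * (1 - ξ / ρ) = ρ - ξ := by field_simp
    linarith
  · rw [max_eq_right h, abs_sub_comm, abs_of_nonneg (sub_nonneg.mpr h)]
    have h1 : Real.log (ρ / ξ) ≤ ρ / ξ - 1 := Real.log_le_sub_one_of_pos (by positivity)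
    have h3 : -Real.log (ρ / ξ) ≤ |Real.log (ρ / ξ)| := neg_le_abs _
    have h4 : ξ * (1 - ρ / ξ) ≤ ξ * |Real.log (ρ / ξ)| := by
      apply mul_le_mul_of_nonneg_left _ hξ.le; linarith
    have h5 : ξ * (1 - ρ / ξ) = ξ - ρ := by field_simp
    linarith

theorem mn_log_le {ρ ξ : ℝ} (hρ : 1 ≤ ρ) (hξ : 0 < ξ) :
    mn ξ (Real.log (ρ / ξ)) ≤ 1 + 4 * (ρ / (1 + |ρ - ξ|)) := by
  have hρ0 : 0 < ρ := by linarith
  have hD : 0 < 1 + |ρ - ξ| := by positivity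
  rcases le_or_gt |ρ - ξ| 1 with h | h
  · have h1 := mn_le_left hξ.le (Real.log (ρ / ξ))
    have h2 : ξ ≤ 2 * ρ := by
      have := (abs_le.mp h).1; linarith
    have h3 : 2 * ρ ≤ 4 * (ρ / (1 + |ρ - ξ|)) := by
      rw [← mul_div_assoc, le_div_iff₀ hD]
      nlinarith
    linarith
  · have hne : ρ - ξ ≠ 0 := by
      intro h0; rw [h0, abs_zero] at h; linarith
    have hL0 := abs_log_ge hρ0 hξ
    have hmax : max ρ ξ ≤ ρ + |ρ - ξ| := by
      apply max_le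
      · linarith [abs_nonneg (ρ - ξ)]
      · have : ξ - ρ ≤ |ρ - ξ| := by rw [abs_sub_comm]; exact le_abs_self _
        linarith
    have hLpos : 0 < |Real.log (ρ / ξ)| := by
      by_contra hcon
      have h0 : |Real.log (ρ / ξ)| = 0 := le_antisymm (not_lt.mp hcon) (abs_nonneg _)
      rw [h0, mul_zero] at hL0
      linarith
    have hLne : Real.log (ρ / ξ) ≠ 0 := abs_pos.mp hLpos
    have h1 := mn_le_inv hξ.le hLne
    have h2 : 1 / |Real.log (ρ / ξ)| ≤ (ρ + |ρ - ξ|) / |ρ - ξ| := by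
      rw [div_le_div_iff₀ hLpos (by linarith), one_mul]
      refine hL0.trans ?_
      exact mul_le_mul_of_nonneg_right hmax hLpos.le
    have h3 : (ρ + |ρ - ξ|) / |ρ - ξ| ≤ 1 + 4 * (ρ / (1 + |ρ - ξ|)) := by
      have hd : 0 < |ρ - ξ| := by linarith
      have e1 : (ρ + |ρ - ξ|) / |ρ - ξ| = 1 + ρ / |ρ - ξ| := by field_simp; ring
      rw [e1]
      have : ρ / |ρ - ξ| ≤ 4 * (ρ / (1 + |ρ - ξ|)) := by
        rw [← mul_div_assoc, div_le_div_iff₀ hd hD]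
        nlinarith
      linarith
    linarith

/-- pointwise bound of a term of the sum in `TErr`. -/
theorem term_le {N : ℝ} (hN : 1 ≤ N) {a b c : ℕ} (ha : 1 ≤ a) (hb : 1 ≤ b) (hc : 1 ≤ c) :
    1 + mn ((a : ℝ) * b / c)
          (Real.log (max N (max (a : ℝ) (max (b : ℝ) c)) / ((a : ℝ) * b / c))) +
        mn ((a : ℝ) * b / c) (Real.log (Real.sqrt 2 * N / ((a : ℝ) * b / c))) ≤
      3 + 4 * (Real.sqrt 2 * N / (1 + |Real.sqrt 2 * N - (a : ℝ) * b / c|)) +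
        4 * (N / (1 + |N - (a : ℝ) * b / c|)) +
        4 * ((c : ℝ) / (1 + |(c : ℝ) - (a : ℝ) * b / c|)) +
        4 * ((a : ℝ) * (1 / (1 + |(c : ℝ) - b|))) + 4 * ((b : ℝ) * (1 / (1 + |(c : ℝ) - a|))) := by
  have ha' : (1 : ℝ) ≤ a := by exact_mod_cast ha
  have hb' : (1 : ℝ) ≤ b := by exact_mod_cast hb
  have hc' : (1 : ℝ) ≤ c := by exact_mod_cast hc
  have hξ : 0 < (a : ℝ) * b / c := by positivity
  have hsq2 : 1 ≤ Real.sqrt 2 := by
    rw [Real.one_le_sqrt]; norm_num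
  have hρ2 : 1 ≤ Real.sqrt 2 * N := by nlinarith
  have h2 := mn_log_le hρ2 hξ
  set M := max N (max (a : ℝ) (max (b : ℝ) c)) with hM
  have hM1 : 1 ≤ M := le_trans hN (le_max_left _ _)
  have h1 := mn_log_le hM1 hξ
  have p1 : 0 ≤ N / (1 + |N - (a : ℝ) * b / c|) := by positivity
  have p2 : 0 ≤ (c : ℝ) / (1 + |(c : ℝ) - (a : ℝ) * b / c|) := by positivity
  have p3 : 0 ≤ (a : ℝ) * (1 / (1 + |(c : ℝ) - b|)) := by positivity
  have p4 : 0 ≤ (b : ℝ) * (1 / (1 + |(c : ℝ) - a|)) := by positivity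
  have hcM : (c : ℝ) ≤ M := le_trans (le_max_right _ _) (le_trans (le_max_right _ _) (le_max_right _ _))
  have key : M / (1 + |M - (a : ℝ) * b / c|) ≤ N / (1 + |N - (a : ℝ) * b / c|) +
      (c : ℝ) / (1 + |(c : ℝ) - (a : ℝ) * b / c|) + (a : ℝ) * (1 / (1 + |(c : ℝ) - b|)) +
      (b : ℝ) * (1 / (1 + |(c : ℝ) - a|)) := by
    rcases max_choice N (max (a : ℝ) (max (b : ℝ) c)) with h | h
    · have hMN : M = N := by rw [hM, h]
      rw [hMN]; linarith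
    · rcases max_choice (a : ℝ) (max (b : ℝ) c) with h' | h'
      · have hMa : M = a := by rw [hM, h, h']
        rw [hMa] at hcM ⊢
        have e1 : |(a : ℝ) - (a : ℝ) * b / c| = (a : ℝ) / c * |(c : ℝ) - b| := by
          rw [← abs_of_nonneg (show (0 : ℝ) ≤ (a : ℝ) / c by positivity), ← abs_mul]
          congr 1
          field_simp
        have h3 : |(c : ℝ) - b| ≤ |(a : ℝ) - (a : ℝ) * b / c| := by
          rw [e1]
          have : 1 ≤ (a : ℝ) / c := by rw [one_le_div (by positivity)]; exact hcM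
          nlinarith [abs_nonneg ((c : ℝ) - b)]
        have h4 : (a : ℝ) / (1 + |(a : ℝ) - (a : ℝ) * b / c|) ≤
            (a : ℝ) * (1 / (1 + |(c : ℝ) - b|)) := by
          rw [mul_one_div]
          apply div_le_div_of_nonneg_left (by positivity) (by positivity)
          linarith
        linarith
      · rcases max_choice (b : ℝ) (c : ℝ) with h'' | h''
        · have hMb : M = b := by rw [hM, h, h', h'']
          rw [hMb] at hcM ⊢
          have e1 : |(b : ℝ) - (a : ℝ) * b / c| = (b : ℝ) / c * |(c : ℝ) - a| := by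
            rw [← abs_of_nonneg (show (0 : ℝ) ≤ (b : ℝ) / c by positivity), ← abs_mul]
            congr 1
            field_simp
          have h3 : |(c : ℝ) - a| ≤ |(b : ℝ) - (a : ℝ) * b / c| := by
            rw [e1]
            have : 1 ≤ (b : ℝ) / c := by rw [one_le_div (by positivity)]; exact hcM
            nlinarith [abs_nonneg ((c : ℝ) - a)]
          have h4 : (b : ℝ) / (1 + |(b : ℝ) - (a : ℝ) * b / c|) ≤
              (b : ℝ) * (1 / (1 + |(c : ℝ) - a|)) := by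
            rw [mul_one_div]
            apply div_le_div_of_nonneg_left (by positivity) (by positivity)
            linarith
          linarith
        · have hMc : M = c := by rw [hM, h, h', h'']
          rw [hMc]; linarith
  linarith

/-- the number of summation points -/
theorem K_facts {N : ℝ} (hN : 1 ≤ N) :
    1 ≤ ⌊Real.sqrt 2 * N⌋₊ ∧ ((⌊Real.sqrt 2 * N⌋₊ : ℕ) : ℝ) ≤ 2 * N ∧
      Real.sqrt 2 * N ≤ 2 * ((⌊Real.sqrt 2 * N⌋₊ : ℕ) : ℝ) := by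
  have hsq2 : 1 ≤ Real.sqrt 2 := by
    rw [Real.one_le_sqrt]; norm_num
  have hsq2' : Real.sqrt 2 ≤ 2 := by
    rw [Real.sqrt_le_left (by norm_num)]; norm_num
  have h1 : 1 ≤ Real.sqrt 2 * N := by nlinarith
  have h2 : 1 ≤ ⌊Real.sqrt 2 * N⌋₊ := (Nat.one_le_floor_iff _).mpr h1
  refine ⟨h2, ?_, ?_⟩
  · refine (Nat.floor_le (by linarith)).trans ?_
    nlinarith
  · have h3 := Nat.lt_floor_add_one (Real.sqrt 2 * N)
    have h4 : (1 : ℝ) ≤ ((⌊Real.sqrt 2 * N⌋₊ : ℕ) : ℝ) := by exact_mod_cast h2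
    linarith

theorem weight_eq (a b c : ℕ) :
    1 / Real.sqrt ((a : ℝ) * b * c) =
      1 / Real.sqrt (a : ℝ) * (1 / Real.sqrt (b : ℝ) * (1 / Real.sqrt (c : ℝ))) := by
  rw [Real.sqrt_mul (by positivity), Real.sqrt_mul (by positivity)]
  rw [one_div_mul_one_div, one_div_mul_one_div, mul_assoc]

theorem sum_one (K : ℕ) :
    ∑ a ∈ Icc 1 K, ∑ b ∈ Icc 1 K, ∑ c ∈ Icc 1 K, 1 / Real.sqrt ((a : ℝ) * b * c) = SK K ^ 3 := by
  simp only [weight_eq, ← Finset.mul_sum]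
  simp only [← Finset.sum_mul]
  unfold SK
  ring

theorem sum_F (K : ℕ) (ρ : ℕ → ℝ) (hρ : ∀ c ∈ Icc 1 K, 0 < ρ c) {R : ℝ}
    (hR : ∀ c ∈ Icc 1 K, ρ c ≤ R) :
    ∑ a ∈ Icc 1 K, ∑ b ∈ Icc 1 K, ∑ c ∈ Icc 1 K,
      1 / Real.sqrt ((a : ℝ) * b * c) * (ρ c / (1 + |ρ c - (a : ℝ) * b / c|)) ≤
      2 * SK K ^ 3 + 3 * Real.sqrt R * K * HK K + 3 * Real.sqrt R * K * HK K ^ 2 := by
  have hH := HK_nonneg K
  calc _ = ∑ b ∈ Icc 1 K, ∑ c ∈ Icc 1 K, ∑ a ∈ Icc 1 K,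
      1 / Real.sqrt ((a : ℝ) * b * c) * (ρ c / (1 + |ρ c - (a : ℝ) * b / c|)) := by
        rw [Finset.sum_comm]
        refine Finset.sum_congr rfl fun b _ => ?_
        rw [Finset.sum_comm]
    _ ≤ ∑ b ∈ Icc 1 K, ∑ c ∈ Icc 1 K, (2 * SK K * (1 / Real.sqrt b * (1 / Real.sqrt c)) +
        3 * Real.sqrt R * (1 / (c : ℝ)) + 3 * Real.sqrt R * HK K * (1 / (b : ℝ))) := by
        refine Finset.sum_le_sum fun b hb => Finset.sum_le_sum fun c hc => ?_
        have := sum_a K b c (Finset.mem_Icc.mp hb).1 (Finset.mem_Icc.mp hc).1 (hρ c hc)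
        refine this.trans ?_
        have hs : Real.sqrt (ρ c) ≤ Real.sqrt R := Real.sqrt_le_sqrt (hR c hc)
        have h1 : 3 * Real.sqrt (ρ c) * (1 / (c : ℝ)) ≤ 3 * Real.sqrt R * (1 / (c : ℝ)) := by
          gcongr
        have h2 : 3 * Real.sqrt (ρ c) * (1 / (b : ℝ)) * HK K ≤
            3 * Real.sqrt R * HK K * (1 / (b : ℝ)) := by
          have : 3 * Real.sqrt (ρ c) * (1 / (b : ℝ)) * HK K =
            3 * Real.sqrt (ρ c) * HK K * (1 / (b : ℝ)) := by ring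
          rw [this]; gcongr
        linarith
    _ = _ := by
        simp only [Finset.sum_add_distrib, ← Finset.mul_sum, Finset.sum_const, Nat.card_Icc,
          add_tsub_cancel_right, nsmul_eq_mul]
        simp only [← Finset.sum_mul]
        unfold HK SK
        ring

theorem sum_aa (K : ℕ) :
    ∑ a ∈ Icc 1 K, ∑ b ∈ Icc 1 K, ∑ c ∈ Icc 1 K,
      1 / Real.sqrt ((a : ℝ) * b * c) * ((a : ℝ) * (1 / (1 + |(c : ℝ) - b|))) ≤
      K * Real.sqrt K * (HK K * (2 + 2 * HK K)) := by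
  have hH := HK_nonneg K
  have hpair := sum_sqrt_pair K
  calc _ = ∑ a ∈ Icc 1 K, Real.sqrt (a : ℝ) * ∑ b ∈ Icc 1 K, ∑ c ∈ Icc 1 K,
      1 / Real.sqrt b * (1 / Real.sqrt c) * (1 / (1 + |(c : ℝ) - b|)) := by
        refine Finset.sum_congr rfl fun a ha => ?_
        rw [Finset.mul_sum]
        refine Finset.sum_congr rfl fun b _ => ?_
        rw [Finset.mul_sum]
        refine Finset.sum_congr rfl fun c _ => ?_
        rw [weight_eq]
        have ha1 : (1 : ℝ) ≤ a := by exact_mod_cast (Finset.mem_Icc.mp ha).1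
        have hsa : 0 < Real.sqrt (a : ℝ) := Real.sqrt_pos.mpr (by linarith)
        have haa : (a : ℝ) = Real.sqrt a * Real.sqrt a := (Real.mul_self_sqrt (by linarith)).symm
        have e : 1 / Real.sqrt (a : ℝ) * (a : ℝ) = Real.sqrt a := by
          rw [one_div, inv_mul_eq_iff_eq_mul₀ hsa.ne']; exact haa
        calc _ = (1 / Real.sqrt (a : ℝ) * (a : ℝ)) * (1 / Real.sqrt b * (1 / Real.sqrt c) *
              (1 / (1 + |(c : ℝ) - b|))) := by ring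
          _ = _ := by rw [e]
    _ ≤ ∑ a ∈ Icc 1 K, Real.sqrt (K : ℝ) * (HK K * (2 + 2 * HK K)) := by
        refine Finset.sum_le_sum fun a ha => ?_
        have h1 : Real.sqrt (a : ℝ) ≤ Real.sqrt (K : ℝ) :=
          Real.sqrt_le_sqrt (by exact_mod_cast (Finset.mem_Icc.mp ha).2)
        exact mul_le_mul h1 hpair (Finset.sum_nonneg fun b _ => Finset.sum_nonneg fun c _ => by
          positivity) (Real.sqrt_nonneg _)
    _ = _ := by
        simp only [Finset.sum_const, Nat.card_Icc, add_tsub_cancel_right, nsmul_eq_mul]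
        ring

theorem sum_bb (K : ℕ) :
    ∑ a ∈ Icc 1 K, ∑ b ∈ Icc 1 K, ∑ c ∈ Icc 1 K,
      1 / Real.sqrt ((a : ℝ) * b * c) * ((b : ℝ) * (1 / (1 + |(c : ℝ) - a|))) ≤
      K * Real.sqrt K * (HK K * (2 + 2 * HK K)) := by
  refine le_trans (le_of_eq ?_) (sum_aa K)
  rw [Finset.sum_comm]
  refine Finset.sum_congr rfl fun b _ => Finset.sum_congr rfl fun a _ =>
    Finset.sum_congr rfl fun c _ => ?_
  rw [mul_comm (a : ℝ) b]

theorem pow_final {N : ℝ} (hN : 1 ≤ N) {K : ℕ} (hK : 1 ≤ K) (hKN : (K : ℝ) ≤ 2 * N) :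
    K * Real.sqrt K * HK K ^ 2 ≤ 324 * N ^ (7 / 4 : ℝ) := by
  have hK0 : (0 : ℝ) < K := by exact_mod_cast hK
  have h1 : HK K ^ 2 ≤ 81 * (K : ℝ) ^ (1 / 4 : ℝ) := by
    have := HK_le K
    have h2 : HK K ^ 2 ≤ (9 * (K : ℝ) ^ (1 / 8 : ℝ)) ^ 2 :=
      pow_le_pow_left₀ (HK_nonneg K) this 2
    rw [mul_pow, ← Real.rpow_natCast ((K : ℝ) ^ (1 / 8 : ℝ)) 2, ← Real.rpow_mul hK0.le] at h2
    norm_num at h2 ⊢
    exact h2
  have h2 : K * Real.sqrt K * (81 * (K : ℝ) ^ (1 / 4 : ℝ)) = 81 * (K : ℝ) ^ (7 / 4 : ℝ) := by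
    rw [Real.sqrt_eq_rpow]
    have : (K : ℝ) ^ (7 / 4 : ℝ) = (K : ℝ) ^ (1 : ℝ) * (K : ℝ) ^ (1 / 2 : ℝ) *
        (K : ℝ) ^ (1 / 4 : ℝ) := by
      rw [← Real.rpow_add hK0, ← Real.rpow_add hK0]; norm_num
    rw [this, Real.rpow_one]; ring
  have h3 : (K : ℝ) ^ (7 / 4 : ℝ) ≤ (2 * N) ^ (7 / 4 : ℝ) :=
    Real.rpow_le_rpow hK0.le hKN (by norm_num)
  have h4 : (2 * N) ^ (7 / 4 : ℝ) = (2 : ℝ) ^ (7 / 4 : ℝ) * N ^ (7 / 4 : ℝ) :=
    Real.mul_rpow (by norm_num) (by linarith)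
  have h5 : (2 : ℝ) ^ (7 / 4 : ℝ) ≤ 4 := by
    have : (2 : ℝ) ^ (7 / 4 : ℝ) ≤ (2 : ℝ) ^ (2 : ℝ) :=
      Real.rpow_le_rpow_of_exponent_le (by norm_num) (by norm_num)
    norm_num at this ⊢
    exact this
  have h6 : 0 ≤ N ^ (7 / 4 : ℝ) := by positivity
  calc _ ≤ K * Real.sqrt K * (81 * (K : ℝ) ^ (1 / 4 : ℝ)) := by gcongr
    _ = 81 * (K : ℝ) ^ (7 / 4 : ℝ) := h2
    _ ≤ 81 * ((2 : ℝ) ^ (7 / 4 : ℝ) * N ^ (7 / 4 : ℝ)) := by rw [← h4]; gcongr
    _ ≤ 81 * (4 * N ^ (7 / 4 : ℝ)) := by gcongr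
    _ = _ := by ring

theorem err : TErr := by
  refine ⟨1000 * 324, by norm_num, ?_⟩
  intro N hN
  obtain ⟨hK1, hKN, hKN'⟩ := K_facts hN
  set K := ⌊Real.sqrt 2 * N⌋₊ with hK
  have hsq2 : 1 ≤ Real.sqrt 2 := by
    rw [Real.one_le_sqrt]; norm_num
  have hK0 : (1 : ℝ) ≤ K := by exact_mod_cast hK1
  have hpt : ∑ a ∈ Icc 1 K, ∑ b ∈ Icc 1 K, ∑ c ∈ Icc 1 K, 1 / Real.sqrt ((a : ℝ) * b * c) *
        (1 + mn ((a : ℝ) * b / c)
              (Real.log (max N (max (a : ℝ) (max (b : ℝ) c)) / ((a : ℝ) * b / c))) +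
          mn ((a : ℝ) * b / c) (Real.log (Real.sqrt 2 * N / ((a : ℝ) * b / c)))) ≤
      ∑ a ∈ Icc 1 K, ∑ b ∈ Icc 1 K, ∑ c ∈ Icc 1 K,
        (3 * (1 / Real.sqrt ((a : ℝ) * b * c)) +
        4 * (1 / Real.sqrt ((a : ℝ) * b * c) *
          (Real.sqrt 2 * N / (1 + |Real.sqrt 2 * N - (a : ℝ) * b / c|))) +
        4 * (1 / Real.sqrt ((a : ℝ) * b * c) * (N / (1 + |N - (a : ℝ) * b / c|))) +
        4 * (1 / Real.sqrt ((a : ℝ) * b * c) * ((c : ℝ) / (1 + |(c : ℝ) - (a : ℝ) * b / c|))) +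
        4 * (1 / Real.sqrt ((a : ℝ) * b * c) * ((a : ℝ) * (1 / (1 + |(c : ℝ) - b|)))) +
        4 * (1 / Real.sqrt ((a : ℝ) * b * c) * ((b : ℝ) * (1 / (1 + |(c : ℝ) - a|))))) := by
    refine Finset.sum_le_sum fun a ha => Finset.sum_le_sum fun b hb =>
      Finset.sum_le_sum fun c hc => ?_
    have h1 := term_le hN (Finset.mem_Icc.mp ha).1 (Finset.mem_Icc.mp hb).1 (Finset.mem_Icc.mp hc).1
    have h2 : (0 : ℝ) ≤ 1 / Real.sqrt ((a : ℝ) * b * c) := by positivity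
    have h3 := mul_le_mul_of_nonneg_left h1 h2
    refine h3.trans (le_of_eq ?_)
    ring
  refine hpt.trans ?_
  simp only [Finset.sum_add_distrib, ← Finset.mul_sum]
  have s1 := sum_one K
  have s2 := sum_F K (fun _ => Real.sqrt 2 * N) (fun c _ => by positivity) (R := 2 * K)
    (fun c _ => hKN')
  have s3 := sum_F K (fun _ => N) (fun c _ => by linarith) (R := 2 * K)
    (fun c _ => by nlinarith)
  have s4 := sum_F K (fun c => (c : ℝ)) (fun c hc => by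
      have := (Finset.mem_Icc.mp hc).1; exact_mod_cast this) (R := 2 * K)
    (fun c hc => by
      have := (Finset.mem_Icc.mp hc).2
      have : (c : ℝ) ≤ K := by exact_mod_cast this
      linarith)
  have s5 := sum_aa K
  have s6 := sum_bb K
  have hfin := pow_final hN hK1 hKN
  have hSK : SK K ^ 3 ≤ 8 * (K * Real.sqrt K * HK K ^ 2) := by
    have h1 := SK_le K
    have h2 : SK K ^ 3 ≤ (2 * Real.sqrt K) ^ 3 := pow_le_pow_left₀ (SK_nonneg K) h1 3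
    have h3 : (2 * Real.sqrt K) ^ 3 = 8 * (K * Real.sqrt K) := by
      have : Real.sqrt (K : ℝ) ^ 2 = K := Real.sq_sqrt (by linarith)
      calc (2 * Real.sqrt K) ^ 3 = 8 * (Real.sqrt (K : ℝ) ^ 2 * Real.sqrt K) := by ring
        _ = _ := by rw [this]
    have h4 : 1 ≤ HK K ^ 2 := by
      have := one_le_HK hK1; nlinarith
    have h5 : 0 ≤ (K : ℝ) * Real.sqrt K := by positivity
    nlinarith
  have hs2K : Real.sqrt (2 * K) ≤ 2 * Real.sqrt K := by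
    rw [Real.sqrt_mul (by norm_num)]
    have : Real.sqrt 2 ≤ 2 := by rw [Real.sqrt_le_left (by norm_num)]; norm_num
    gcongr
  have hHH : HK K ≤ HK K ^ 2 := by
    have := one_le_HK hK1; nlinarith
  have hHn := HK_nonneg K
  have hX : 0 ≤ (K : ℝ) * Real.sqrt K * HK K ^ 2 := by positivity
  have t1 : 3 * Real.sqrt (2 * K) * K * HK K ≤ 6 * (K * Real.sqrt K * HK K ^ 2) := by
    calc 3 * Real.sqrt (2 * K) * K * HK K ≤ 3 * (2 * Real.sqrt K) * K * HK K ^ 2 := by gcongr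
      _ = _ := by ring
  have t2 : 3 * Real.sqrt (2 * K) * K * HK K ^ 2 ≤ 6 * (K * Real.sqrt K * HK K ^ 2) := by
    calc 3 * Real.sqrt (2 * K) * K * HK K ^ 2 ≤ 3 * (2 * Real.sqrt K) * K * HK K ^ 2 := by gcongr
      _ = _ := by ring
  have t3 : K * Real.sqrt K * (HK K * (2 + 2 * HK K)) ≤ 4 * (K * Real.sqrt K * HK K ^ 2) := by
    have : HK K * (2 + 2 * HK K) ≤ 4 * HK K ^ 2 := by nlinarith
    calc K * Real.sqrt K * (HK K * (2 + 2 * HK K)) ≤ K * Real.sqrt K * (4 * HK K ^ 2) := by gcongr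
      _ = _ := by ring

  rw [s1]
  nlinarith

end Pool.Agent.H90.Cubic
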