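import Pool.Agent.H90.Cubic.Err

/-! Cubic moment of Hardy's function: module `TP3`. -/

set_option autoImplicit false

open Finset MeasureTheory intervalIntegral

namespace Pool.Agent.H90.Cubic

open Pool.Agent.H98.Cubic

theorem hasDerivAt_th0 {t : ℝ} (ht : 0 < t) :
    HasDerivAt th0 (1 / 2 * Real.log (t / (2 * Real.pi))) t := by
  unfold th0
  have hpi : 0 < 2 * Real.pi := Real.two_pi_pos
  have h1 : HasDerivAt (fun t : ℝ => t / (2 * Real.pi)) (1 / (2 * Real.pi)) t :=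
    (hasDerivAt_id t).div_const _
  have h2 : HasDerivAt (fun t : ℝ => Real.log (t / (2 * Real.pi))) (1 / (2 * Real.pi) / (t / (2 * Real.pi))) t :=
    h1.log (by positivity)
  have h3 : HasDerivAt (fun t : ℝ => t / 2) (1 / 2) t := (hasDerivAt_id t).div_const _
  have h4 := ((h3.mul h2).sub h3).sub_const (Real.pi / 8)
  refine h4.congr_deriv ?_
  field_simp
  ring

theorem hasDerivAt_F {A t : ℝ} (ht : 0 < t) :
    HasDerivAt (fun t => 3 * th0 t - t * A) (3 / 2 * Real.log (t / (2 * Real.pi)) - A) t := by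
  have h1 := ((hasDerivAt_th0 ht).const_mul 3).sub ((hasDerivAt_id t).mul_const A)
  refine h1.congr_deriv ?_
  ring

theorem hasDerivAt_F' {A t : ℝ} (ht : 0 < t) :
    HasDerivAt (fun t => 3 / 2 * Real.log (t / (2 * Real.pi)) - A) (3 / (2 * t)) t := by
  have hpi : 0 < 2 * Real.pi := Real.two_pi_pos
  have h1 : HasDerivAt (fun t : ℝ => t / (2 * Real.pi)) (1 / (2 * Real.pi)) t :=
    (hasDerivAt_id t).div_const _
  have h2 : HasDerivAt (fun t : ℝ => Real.log (t / (2 * Real.pi))) (1 / (2 * Real.pi) / (t / (2 * Real.pi))) t :=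
    h1.log (by positivity)
  refine ((h2.const_mul (3 / 2)).sub_const A).congr_deriv ?_
  field_simp

/-- first derivative test for the cubic phase -/
theorem first_test {A t₁ t₂ lam : ℝ} (h0 : 0 < t₁) (h12 : t₁ ≤ t₂) (hl : 0 < lam)
    (h : lam ≤ 3 / 2 * Real.log (t₁ / (2 * Real.pi)) - A) :
    ‖∫ t in t₁..t₂, ei (3 * th0 t - t * A)‖ ≤ 4 / lam := by
  have hpi : 0 < 2 * Real.pi := Real.two_pi_pos
  refine norm_integral_ei_le h12 hl (h := fun t => 3 * th0 t - t * A)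
    (h' := fun t => 3 / 2 * Real.log (t / (2 * Real.pi)) - A) (h'' := fun t => 3 / (2 * t))
    ?_ ?_ ?_ ?_ ?_
  · intro x hx; exact hasDerivAt_F (h0.trans_le hx.1)
  · intro x hx; exact hasDerivAt_F' (h0.trans_le hx.1)
  · apply ContinuousOn.div continuousOn_const (by fun_prop)
    intro x hx
    have := h0.trans_le hx.1
    positivity
  · left; intro x hx
    have := h0.trans_le hx.1
    positivity
  · intro x hx
    have hx0 := h0.trans_le hx.1
    refine le_trans ?_ (le_abs_self _)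
    refine h.trans ?_
    have : Real.log (t₁ / (2 * Real.pi)) ≤ Real.log (x / (2 * Real.pi)) := by
      apply Real.log_le_log (by positivity)
      gcongr
      exact hx.1
    linarith

theorem integrable_F {A t₁ t₂ : ℝ} (h0 : 0 < t₁) (h12 : t₁ ≤ t₂) :
    IntervalIntegrable (fun t => ei (3 * th0 t - t * A)) volume t₁ t₂ := by
  apply ContinuousOn.intervalIntegrable
  rw [Set.uIcc_of_le h12]
  apply continuous_ei.comp_continuousOn
  intro x hx
  exact (hasDerivAt_F (h0.trans_le hx.1)).continuousAt.continuousWithinAt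

/-- second derivative test for the cubic phase -/
theorem second_test {N A t₁ : ℝ} (hN : 1 ≤ N) (h0 : 0 < t₁) (h12 : t₁ ≤ 2 * (2 * Real.pi * N ^ 2))
    (h : 0 ≤ 3 / 2 * Real.log (t₁ / (2 * Real.pi)) - A) :
    ‖∫ t in t₁..(2 * (2 * Real.pi * N ^ 2)), ei (3 * th0 t - t * A)‖ ≤ 35 * N := by
  have hpi : 0 < 2 * Real.pi := Real.two_pi_pos
  set t₂ := 2 * (2 * Real.pi * N ^ 2) with ht₂
  rcases le_total t₂ (t₁ + N) with hc | hc
  · refine (norm_integral_ei_le_length h12 _).trans ?_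
    linarith
  · have h0' : 0 < t₁ + N := by linarith
    have hsplit : (∫ t in t₁..t₂, ei (3 * th0 t - t * A)) =
        (∫ t in t₁..(t₁ + N), ei (3 * th0 t - t * A)) +
          ∫ t in (t₁ + N)..t₂, ei (3 * th0 t - t * A) := by
      rw [intervalIntegral.integral_add_adjacent_intervals]
      · exact integrable_F h0 (by linarith)
      · exact integrable_F h0' hc
    have h1 : ‖∫ t in t₁..(t₁ + N), ei (3 * th0 t - t * A)‖ ≤ N := by
      refine (norm_integral_ei_le_length (by linarith) _).trans ?_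
      linarith
    have h2 : ‖∫ t in (t₁ + N)..t₂, ei (3 * th0 t - t * A)‖ ≤ 4 / (3 / (8 * Real.pi * N)) := by
      apply first_test h0' hc (by positivity)
      have e1 : Real.log ((t₁ + N) / (2 * Real.pi)) =
          Real.log (t₁ / (2 * Real.pi)) - Real.log (t₁ / (t₁ + N)) := by
        rw [Real.log_div h0'.ne' hpi.ne', Real.log_div h0.ne' hpi.ne', Real.log_div h0.ne' h0'.ne']
        ring
      have e2 : Real.log (t₁ / (t₁ + N)) ≤ t₁ / (t₁ + N) - 1 :=
        Real.log_le_sub_one_of_pos (by positivity)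
      have e3 : t₁ / (t₁ + N) - 1 = -(N / (t₁ + N)) := by field_simp; ring
      have e4 : N / t₂ ≤ N / (t₁ + N) := by
        apply div_le_div_of_nonneg_left (by linarith) h0' hc
      have e5 : N / t₂ = 1 / (4 * Real.pi * N) := by
        rw [ht₂]; field_simp; ring
      have e6 : 3 / (8 * Real.pi * N) = 3 / 2 * (1 / (4 * Real.pi * N)) := by
        field_simp; ring
      rw [e1, e6]
      rw [e5] at e4
      linarith
    have h3 : 4 / (3 / (8 * Real.pi * N)) ≤ 34 * N := by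
      have : 4 / (3 / (8 * Real.pi * N)) = 32 / 3 * Real.pi * N := by
        field_simp; ring
      rw [this]
      have hp : Real.pi ≤ 3.15 := Real.pi_lt_d2.le
      nlinarith
    rw [hsplit]
    refine (norm_add_le _ _).trans ?_
    linarith

/-- bound for one term of `TP3`. -/
theorem term_P3 {N : ℝ} (hN : 1 ≤ N) {a b c : ℕ} (ha : 1 ≤ a) (hb : 1 ≤ b) (hc : 1 ≤ c)
    (ha' : (a : ℝ) ≤ Real.sqrt 2 * N) (hb' : (b : ℝ) ≤ Real.sqrt 2 * N)
    (hc' : (c : ℝ) ≤ Real.sqrt 2 * N) :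
    ‖∫ t in (2 * Real.pi * (max N (max (a : ℝ) (max (b : ℝ) c))) ^ 2)..(2 * (2 * Real.pi * N ^ 2)),
          ei (3 * th0 t - t * Real.log ((a : ℝ) * b * c))‖ ≤
      70 * (N / (1 + |(a : ℝ) - N|)) + 70 * (N * (1 / (1 + |(b : ℝ) - a|))) +
        70 * (N * (1 / (1 + |(c : ℝ) - a|))) := by
  have hpi : 0 < 2 * Real.pi := Real.two_pi_pos
  have ha1 : (1 : ℝ) ≤ a := by exact_mod_cast ha
  have hb1 : (1 : ℝ) ≤ b := by exact_mod_cast hb
  have hc1 : (1 : ℝ) ≤ c := by exact_mod_cast hc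
  have hs1 : 1 ≤ Real.sqrt 2 := by rw [Real.one_le_sqrt]; norm_num
  have hs2 : Real.sqrt 2 ≤ 3 / 2 := by rw [Real.sqrt_le_left (by norm_num)]; norm_num
  set M := max N (max (a : ℝ) (max (b : ℝ) c)) with hM
  have hNM : N ≤ M := le_max_left _ _
  have haM : (a : ℝ) ≤ M := le_trans (le_max_left _ _) (le_max_right _ _)
  have hbM : (b : ℝ) ≤ M :=
    le_trans (le_max_left _ _) (le_trans (le_max_right _ _) (le_max_right _ _))
  have hcM : (c : ℝ) ≤ M :=
    le_trans (le_max_right _ _) (le_trans (le_max_right _ _) (le_max_right _ _))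
  have hMN : M ≤ Real.sqrt 2 * N := by
    rw [hM]
    exact max_le (by nlinarith) (max_le ha' (max_le hb' hc'))
  have hM0 : 0 < M := by linarith
  have ht0 : 0 < 2 * Real.pi * M ^ 2 := by positivity
  have ht12 : 2 * Real.pi * M ^ 2 ≤ 2 * (2 * Real.pi * N ^ 2) := by
    have h1 : M ^ 2 ≤ (Real.sqrt 2 * N) ^ 2 := pow_le_pow_left₀ hM0.le hMN 2
    have h2 : (Real.sqrt 2 * N) ^ 2 = 2 * N ^ 2 := by
      rw [mul_pow, Real.sq_sqrt (by norm_num)]
    rw [h2] at h1
    nlinarith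
  have hlogM : 3 / 2 * Real.log (2 * Real.pi * M ^ 2 / (2 * Real.pi)) = 3 * Real.log M := by
    have : 2 * Real.pi * M ^ 2 / (2 * Real.pi) = M ^ 2 := by field_simp
    rw [this, Real.log_pow]; push_cast; ring
  have hlogabc : Real.log ((a : ℝ) * b * c) = Real.log a + Real.log b + Real.log c := by
    rw [Real.log_mul (by positivity) (by positivity), Real.log_mul (by positivity) (by positivity)]
  have hla : Real.log (a : ℝ) ≤ Real.log M := Real.log_le_log (by linarith) haM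
  have hlb : Real.log (b : ℝ) ≤ Real.log M := Real.log_le_log (by linarith) hbM
  have hlc : Real.log (c : ℝ) ≤ Real.log M := Real.log_le_log (by linarith) hcM
  have hgap : ∀ y : ℝ, 0 < y → (M - y) / M ≤ Real.log M - Real.log y := by
    intro y hy
    have h1 : Real.log (y / M) ≤ y / M - 1 := Real.log_le_sub_one_of_pos (by positivity)
    rw [Real.log_div hy.ne' hM0.ne'] at h1
    have : (M - y) / M = 1 - y / M := by field_simp
    linarith
  -- the general bound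
  have hgen : ∀ y : ℝ, 0 < y → y ≤ M →
      (Real.log M - Real.log y ≤ 3 * Real.log M - Real.log ((a : ℝ) * b * c)) →
      ‖∫ t in (2 * Real.pi * M ^ 2)..(2 * (2 * Real.pi * N ^ 2)),
          ei (3 * th0 t - t * Real.log ((a : ℝ) * b * c))‖ ≤ 70 * (N / (1 + |M - y|)) := by
    intro y hy hyM hlog
    rw [abs_of_nonneg (sub_nonneg.mpr hyM)]
    have hD : 0 < 1 + (M - y) := by linarith
    have hF0 : 0 ≤ 3 / 2 * Real.log (2 * Real.pi * M ^ 2 / (2 * Real.pi)) -
        Real.log ((a : ℝ) * b * c) := by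
      rw [hlogM, hlogabc]; linarith
    rcases le_or_gt (M - y) 1 with h | h
    · refine (second_test hN ht0 ht12 hF0).trans ?_
      rw [← mul_div_assoc, le_div_iff₀ hD]
      nlinarith
    · have hlam : 0 < (M - y) / M := by apply div_pos (by linarith) hM0
      have h1 := first_test (A := Real.log ((a : ℝ) * b * c)) ht0 ht12 hlam (by
        rw [hlogM]
        exact (hgap y hy).trans hlog)
      refine h1.trans ?_
      have e1 : 4 / ((M - y) / M) = 4 * M / (M - y) := by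
        rw [div_div_eq_mul_div]
      rw [e1, ← mul_div_assoc, div_le_div_iff₀ (by linarith) hD]
      have h2 : 4 * M ≤ 6 * N := by nlinarith
      nlinarith
  have p1 : 0 ≤ N / (1 + |(a : ℝ) - N|) := by positivity
  have p2 : 0 ≤ N * (1 / (1 + |(b : ℝ) - a|)) := by positivity
  have p3 : 0 ≤ N * (1 / (1 + |(c : ℝ) - a|)) := by positivity
  rcases max_choice N (max (a : ℝ) (max (b : ℝ) c)) with h | h
  · have hMe : M = N := by rw [hM, h]
    have h1 := hgen a (by linarith) haM (by rw [hlogabc]; linarith)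
    have e : |M - (a : ℝ)| = |(a : ℝ) - N| := by rw [hMe, abs_sub_comm]
    rw [e] at h1
    linarith
  · rcases max_choice (a : ℝ) (max (b : ℝ) c) with h' | h'
    · have hMe : M = a := by rw [hM, h, h']
      have h1 := hgen b (by linarith) hbM (by rw [hlogabc]; linarith)
      have e : |M - (b : ℝ)| = |(b : ℝ) - a| := by rw [hMe, abs_sub_comm]
      rw [e] at h1
      have e2 : N / (1 + |(b : ℝ) - a|) = N * (1 / (1 + |(b : ℝ) - a|)) := by rw [mul_one_div]
      rw [e2] at h1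
      linarith
    · rcases max_choice (b : ℝ) (c : ℝ) with h'' | h''
      · have hMe : M = b := by rw [hM, h, h', h'']
        have h1 := hgen a (by linarith) haM (by rw [hlogabc]; linarith)
        rw [hMe] at h1
        have e2 : N / (1 + |(b : ℝ) - a|) = N * (1 / (1 + |(b : ℝ) - a|)) := by rw [mul_one_div]
        rw [e2] at h1
        rw [hMe]
        linarith
      · have hMe : M = c := by rw [hM, h, h', h'']
        have h1 := hgen a (by linarith) haM (by rw [hlogabc]; linarith)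
        rw [hMe] at h1
        have e2 : N / (1 + |(c : ℝ) - a|) = N * (1 / (1 + |(c : ℝ) - a|)) := by rw [mul_one_div]
        rw [e2] at h1
        rw [hMe]
        linarith

theorem split3 (s : Finset ℕ) (x y z : ℝ) (f g h : ℕ → ℕ → ℕ → ℝ) :
    ∑ a ∈ s, ∑ b ∈ s, ∑ c ∈ s, (x * f a b c + y * g a b c + z * h a b c) =
      x * (∑ a ∈ s, ∑ b ∈ s, ∑ c ∈ s, f a b c) + y * (∑ a ∈ s, ∑ b ∈ s, ∑ c ∈ s, g a b c) +
        z * (∑ a ∈ s, ∑ b ∈ s, ∑ c ∈ s, h a b c) := by
  simp only [Finset.sum_add_distrib, ← Finset.mul_sum]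

theorem p3 : TP3 := by
  refine ⟨30000 * 324, by norm_num, ?_⟩
  intro N hN
  obtain ⟨hK1, hKN, hKN'⟩ := K_facts hN
  have hfl : ((⌊Real.sqrt 2 * N⌋₊ : ℕ) : ℝ) ≤ Real.sqrt 2 * N := Nat.floor_le (by positivity)
  set K := ⌊Real.sqrt 2 * N⌋₊ with hK
  have hs1 : 1 ≤ Real.sqrt 2 := by rw [Real.one_le_sqrt]; norm_num
  have hK0 : (1 : ℝ) ≤ K := by exact_mod_cast hK1
  have hle : ∀ x ∈ Icc 1 K, 1 ≤ x ∧ (x : ℝ) ≤ Real.sqrt 2 * N := by
    intro x hx
    obtain ⟨h1, h2⟩ := Finset.mem_Icc.mp hx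
    refine ⟨h1, le_trans ?_ hfl⟩
    exact_mod_cast h2
  have hpt : ‖∑ a ∈ Icc 1 K, ∑ b ∈ Icc 1 K, ∑ c ∈ Icc 1 K,
        ((1 / Real.sqrt ((a : ℝ) * b * c) : ℝ) : ℂ) *
        ∫ t in (2 * Real.pi * (max N (max (a : ℝ) (max (b : ℝ) c))) ^ 2)..(2 * (2 * Real.pi * N ^ 2)),
          ei (3 * th0 t - t * Real.log ((a : ℝ) * b * c))‖ ≤
      ∑ a ∈ Icc 1 K, ∑ b ∈ Icc 1 K, ∑ c ∈ Icc 1 K,
        (70 * ((1 / Real.sqrt (a : ℝ) * (N / (1 + |(a : ℝ) - N|))) *
            (1 / Real.sqrt (b : ℝ)) * (1 / Real.sqrt (c : ℝ))) +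
        70 * N * ((1 / Real.sqrt (a : ℝ) * (1 / Real.sqrt (b : ℝ)) * (1 / (1 + |(b : ℝ) - a|))) *
            (1 / Real.sqrt (c : ℝ))) +
        70 * N * ((1 / Real.sqrt (a : ℝ) * (1 / Real.sqrt (c : ℝ)) * (1 / (1 + |(c : ℝ) - a|))) *
            (1 / Real.sqrt (b : ℝ)))) := by
    refine (norm_sum_le _ _).trans (Finset.sum_le_sum fun a ha => ?_)
    refine (norm_sum_le _ _).trans (Finset.sum_le_sum fun b hb => ?_)
    refine (norm_sum_le _ _).trans (Finset.sum_le_sum fun c hc => ?_)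
    rw [norm_mul, Complex.norm_real, Real.norm_eq_abs, abs_of_nonneg (by positivity)]
    have h1 := term_P3 hN (hle a ha).1 (hle b hb).1 (hle c hc).1 (hle a ha).2 (hle b hb).2
      (hle c hc).2
    have h2 : (0 : ℝ) ≤ 1 / Real.sqrt ((a : ℝ) * b * c) := by positivity
    have h3 := mul_le_mul_of_nonneg_left h1 h2
    refine h3.trans (le_of_eq ?_)
    rw [weight_eq]
    ring
  have hS := SK_nonneg K
  have hSle := SK_le K
  have hH := HK_nonneg K
  have hH1 := one_le_HK hK1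
  have hnear := sum_near_weight K (x := N) (δ := 1) (by linarith) one_pos
  have hpair := sum_sqrt_pair K
  have hsq0 : 0 ≤ Real.sqrt (K : ℝ) := Real.sqrt_nonneg _
  have hsq1 : 1 ≤ Real.sqrt (K : ℝ) := by rw [Real.one_le_sqrt]; exact hK0
  have hsq2 : Real.sqrt (K : ℝ) ^ 2 = K := Real.sq_sqrt (by linarith)
  have hN2K : N ≤ 2 * K := by nlinarith
  have hsN : Real.sqrt (2 * N) ≤ 2 * Real.sqrt K := by
    rw [show (2 : ℝ) * Real.sqrt K = Real.sqrt (4 * K) by
      rw [Real.sqrt_mul (by norm_num), show (4 : ℝ) = 2 ^ 2 by norm_num, Real.sqrt_sq (by norm_num)]]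
    apply Real.sqrt_le_sqrt; linarith
  have hfin := pow_final hN hK1 hKN
  have hNpow : N ^ (7 / 4 : ℝ) ≤ N ^ (37 / 20 : ℝ) :=
    Real.rpow_le_rpow_of_exponent_le hN (by norm_num)
  -- the three sums
  have s1 : ∑ a ∈ Icc 1 K, ∑ b ∈ Icc 1 K, ∑ c ∈ Icc 1 K,
      (1 / Real.sqrt (a : ℝ) * (N / (1 + |(a : ℝ) - N|))) *
            (1 / Real.sqrt (b : ℝ)) * (1 / Real.sqrt (c : ℝ)) =
      (∑ a ∈ Icc 1 K, 1 / Real.sqrt (a : ℝ) * (N / (1 + |(a : ℝ) - N|))) * SK K * SK K := by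
    simp only [← Finset.mul_sum, ← Finset.sum_mul]
    unfold SK
    rfl
  have s2 : ∑ a ∈ Icc 1 K, ∑ b ∈ Icc 1 K, ∑ c ∈ Icc 1 K,
      (1 / Real.sqrt (a : ℝ) * (1 / Real.sqrt (b : ℝ)) * (1 / (1 + |(b : ℝ) - a|))) *
            (1 / Real.sqrt (c : ℝ)) =
      (∑ a ∈ Icc 1 K, ∑ b ∈ Icc 1 K, 1 / Real.sqrt (a : ℝ) * (1 / Real.sqrt (b : ℝ)) *
        (1 / (1 + |(b : ℝ) - a|))) * SK K := by
    simp only [← Finset.mul_sum, ← Finset.sum_mul]
    unfold SK
    rfl
  have s3 : ∑ a ∈ Icc 1 K, ∑ b ∈ Icc 1 K, ∑ c ∈ Icc 1 K,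
      (1 / Real.sqrt (a : ℝ) * (1 / Real.sqrt (c : ℝ)) * (1 / (1 + |(c : ℝ) - a|))) *
            (1 / Real.sqrt (b : ℝ)) =
      (∑ a ∈ Icc 1 K, ∑ c ∈ Icc 1 K, 1 / Real.sqrt (a : ℝ) * (1 / Real.sqrt (c : ℝ)) *
        (1 / (1 + |(c : ℝ) - a|))) * SK K := by
    have : ∀ a ∈ Icc 1 K, ∑ b ∈ Icc 1 K, ∑ c ∈ Icc 1 K,
      (1 / Real.sqrt (a : ℝ) * (1 / Real.sqrt (c : ℝ)) * (1 / (1 + |(c : ℝ) - a|))) *
            (1 / Real.sqrt (b : ℝ)) = (∑ c ∈ Icc 1 K, 1 / Real.sqrt (a : ℝ) *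
              (1 / Real.sqrt (c : ℝ)) * (1 / (1 + |(c : ℝ) - a|))) * SK K := by
      intro a _
      unfold SK
      rw [Finset.mul_sum]
      refine Finset.sum_congr rfl fun b _ => ?_
      rw [Finset.sum_mul]
    rw [Finset.sum_congr rfl this, ← Finset.sum_mul]
  refine hpt.trans ?_
  rw [split3 (Icc 1 K) 70 (70 * N) (70 * N)
    (fun a b c => (1 / Real.sqrt (a : ℝ) * (N / (1 + |(a : ℝ) - N|))) *
            (1 / Real.sqrt (b : ℝ)) * (1 / Real.sqrt (c : ℝ)))
    (fun a b c => (1 / Real.sqrt (a : ℝ) * (1 / Real.sqrt (b : ℝ)) * (1 / (1 + |(b : ℝ) - a|))) *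
            (1 / Real.sqrt (c : ℝ)))
    (fun a b c => (1 / Real.sqrt (a : ℝ) * (1 / Real.sqrt (c : ℝ)) * (1 / (1 + |(c : ℝ) - a|))) *
            (1 / Real.sqrt (b : ℝ)))]
  rw [s1, s2, s3]
  have hHH : HK K ≤ HK K ^ 2 := by nlinarith
  have hX0 : 0 ≤ (K : ℝ) * Real.sqrt K := by positivity
  have hSK2 : SK K * SK K ≤ 4 * K := by
    calc SK K * SK K ≤ (2 * Real.sqrt K) * (2 * Real.sqrt K) :=
          mul_le_mul hSle hSle hS (by positivity)
      _ = 4 * Real.sqrt K ^ 2 := by ring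
      _ = _ := by rw [hsq2]
  have u1 : (∑ a ∈ Icc 1 K, 1 / Real.sqrt (a : ℝ) * (N / (1 + |(a : ℝ) - N|))) * SK K * SK K ≤
      48 * (K * Real.sqrt K * HK K ^ 2) := by
    have h1 : ∑ a ∈ Icc 1 K, 1 / Real.sqrt (a : ℝ) * (N / (1 + |(a : ℝ) - N|)) ≤
        12 * Real.sqrt K * HK K := by
      refine hnear.trans ?_
      have h2 : Real.sqrt (2 * N) * (2 / 1 + 2 * HK K) ≤ 2 * Real.sqrt K * (4 * HK K) := by
        apply mul_le_mul hsN _ (by positivity) (by positivity)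
        linarith
      have h3 : 2 * SK K ≤ 4 * Real.sqrt K * HK K := by nlinarith
      linarith
    have h0 : 0 ≤ ∑ a ∈ Icc 1 K, 1 / Real.sqrt (a : ℝ) * (N / (1 + |(a : ℝ) - N|)) :=
      Finset.sum_nonneg fun a _ => by positivity
    calc _ = (∑ a ∈ Icc 1 K, 1 / Real.sqrt (a : ℝ) * (N / (1 + |(a : ℝ) - N|))) *
          (SK K * SK K) := by ring
      _ ≤ (12 * Real.sqrt K * HK K) * (4 * K) := mul_le_mul h1 hSK2 (by positivity) (by positivity)
      _ = 48 * (K * Real.sqrt K * HK K) := by ring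
      _ ≤ _ := by gcongr
  have u2 : N * ((∑ a ∈ Icc 1 K, ∑ b ∈ Icc 1 K, 1 / Real.sqrt (a : ℝ) * (1 / Real.sqrt (b : ℝ)) *
        (1 / (1 + |(b : ℝ) - a|))) * SK K) ≤ 16 * (K * Real.sqrt K * HK K ^ 2) := by
    have h1 : HK K * (2 + 2 * HK K) ≤ 4 * HK K ^ 2 := by nlinarith
    have h2 := hpair.trans h1
    have h0 : 0 ≤ ∑ a ∈ Icc 1 K, ∑ b ∈ Icc 1 K, 1 / Real.sqrt (a : ℝ) * (1 / Real.sqrt (b : ℝ)) *
        (1 / (1 + |(b : ℝ) - a|)) :=
      Finset.sum_nonneg fun a _ => Finset.sum_nonneg fun b _ => by positivity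
    calc _ ≤ (2 * K) * ((4 * HK K ^ 2) * (2 * Real.sqrt K)) := by
          apply mul_le_mul hN2K _ (by positivity) (by positivity)
          exact mul_le_mul h2 hSle hS (by positivity)
      _ = _ := by ring
  have hfin2 : (K : ℝ) * Real.sqrt K * HK K ^ 2 ≤ 324 * N ^ (37 / 20 : ℝ) := by
    refine hfin.trans ?_
    gcongr
  nlinarith

end Pool.Agent.H90.Cubic
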